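import Pool.Agent.Lib.MP_9abbac_co.Crit

/-!
Q1 is a statement about primes: `B(K)/A(K) → 1` iff `W(K)/E(K) → ∞` for the two explicit sums
`W(K) = Σ 2 ^ (R(k) + T(k))` over `k = 2p - 1 ≤ K` with `p, p + 2, 2p + 1` prime and
`E(K) = Σ_{k ≤ K} 2 ^ R(k) * (1 + u(k)) * (1 + v(k))`.
-/

namespace Pool.Agent.Results.MP_9abbac_co.Criterion

open WCS9 Filter Topology

theorem result :
    (Tendsto (fun K => BB K / AA K) atTop (𝓝 1) ↔ Tendsto (fun K => WW K / EE K) atTop atTop) ∧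
    (Tendsto (fun K => BB K / AA K) atTop (𝓝 1) →
      Tendsto (fun K : ℕ => BB K / (K : ℝ)) atTop atTop ∧
      {p : ℕ | p.Prime ∧ (p + 2).Prime ∧ (2 * p + 1).Prime}.Infinite) ∧
    (∀ δ : ℝ, 0 < δ →
      (∀ᶠ K : ℕ in atTop, ∃ k : ℕ, k ≤ K ∧ IsTSG k ∧
        (K : ℝ) ^ (1 + δ) ≤ (2 : ℝ) ^ (twinSet k).card) →
      Tendsto (fun K => BB K / AA K) atTop (𝓝 1)) :=
  ⟨q1_iff, fun h => ⟨growth_of_q1 h, infinite_of_q1 h⟩, fun _ hδ h => q1_of_primes hδ h⟩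

end Pool.Agent.Results.MP_9abbac_co.Criterion
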