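import Pool.Agent.Lib.MP_9abbac_co.Crit

/-!
Exact number `N(k)` of the weakly consecutive sequences of length `k ≥ 16`, exact number `D(k)` of those derived
from the Twin Sophie Germain start, and the resulting bounds `2 ≤ N(k) - D(k) ≤ k^{o(1)}`.
-/

namespace Pool.Agent.Results.MP_9abbac_co.Enumeration

open WCS9

theorem result :
    (∀ k : ℕ, 16 ≤ k →
      numWCS k = 2 ^ ((ppSet k).card + 1) * ((1 + uu k) * (1 + vv k) + ww k) ∧
      numDerived k = 2 ^ ((ppSet k).card + 1) * ww k ∧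
      numDerived k + 2 ≤ numWCS k) ∧
    (∀ m : ℕ, ∃ C : ℕ, ∀ k : ℕ, 16 ≤ k → (numWCS k - numDerived k) ^ m ≤ C * k) := by
  refine ⟨fun k hk => ⟨numWCS_formula hk, numDerived_formula hk, ?_⟩, fun m => ?_⟩
  · have h1 := one_le_ee k
    rw [numWCS_eq2 hk, numDerived_eq2 hk]
    omega
  · rcases Nat.eq_zero_or_pos m with rfl | hm
    · exact ⟨1, fun k hk => by rw [pow_zero]; omega⟩
    · refine ⟨2 ^ m * (4 ^ m * 2 ^ (2 ^ m * m)), fun k hk => ?_⟩
      have h1 : numWCS k - numDerived k = 2 * ee k := by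
        rw [numWCS_eq2 hk, numDerived_eq2 hk]
        omega
      rw [h1, mul_pow, mul_assoc]
      exact Nat.mul_le_mul_left _ (ee_pow_le hm (by omega))

end Pool.Agent.Results.MP_9abbac_co.Enumeration
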