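import Pool.Agent.Lib.MP_9abbac_co.Five

/-!
For every `k ≥ 16` the weakly consecutive sequences of length `k` are exactly the sequences obtained by the
rules R1, R2, R3 from the explicit starting sequences `IsStart5` (at most five), and the starting sequence is
determined by the sequence.
-/

namespace Pool.Agent.Results.MP_9abbac_co.Starts

open WCS9 Equiv

theorem result : ∀ k : ℕ, 16 ≤ k → ∀ τ : Perm (Seg k),
    (IsWCS k τ ↔ ∃! σ : Perm (Seg k), IsStart5 k σ ∧ Relation.ReflTransGen (Step k) σ τ) :=
  fun _ hk τ => five hk τ

end Pool.Agent.Results.MP_9abbac_co.Starts
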